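import Pool.Agent.NH36.Ab.Split

/-!
# Motives of abelian type over a finite field: abelian if and only if rational = numerical

Let `k` be a finite field and `C` a full rigid tensor subcategory, closed under direct summands, of
the category of Chow motives over `k` with rational coefficients. It has the Frobenius
endomorphisms `fr M`, which are natural and compatible with tensor products. By the trace formula
the trace of the `n`-th power of `fr M` is `∑ m (a) a ^ n`, where `m (a)` is the multiplicity of the
eigenvalue `a` in the even cohomology of `M` minus the multiplicity in the odd cohomology. By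
Deligne's theorem `m (1) ≥ 0`; for `M = h(X)(r)` the number `m (1)` is the order of the pole of
`ζ(X, s)` at `s = r`. In `ZetaBound` it is proved that `dim Hom (𝟙, M) ≤ m (1)` if `C` is abelian.

**Theorem.** Suppose that `C` is an abelian category.
* `dim Hom (𝟙, M) = m (1)` if and only if the strong form of Tate's conjecture holds for `M`: the
  rank of `Hom (𝟙, M)` modulo numerical equivalence is `m (1)`. In this case numerical and rational
  equivalence agree.
* If a space `D` of endomorphisms of `M` of dimension at least `m (1)` consists of zero and of
  endomorphisms invertible modulo numerical equivalence (for example `D` is mapped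
  isomorphically to a field contained in the algebra of endomorphisms modulo numerical
  equivalence), then numerical and rational equivalence agree on `Hom (𝟙, M)`.
* If all objects of `C` are direct summands of finite sums of objects as in the last point, then
  numerical and rational equivalence agree in `C`.

Let `C` be the category of motives of abelian type (generated by the motives of curves, or of
abelian varieties, and the Tate motives). An abelian variety `A` of dimension `g` over a finite
field has a commutative semisimple algebra `E` of endomorphisms with `[E : ℚ] = 2 g`, and `H ^ 1 (A)`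
is free of rank one over `E ⊗ ℚ_l` (Tate). So `h ^ 1 (A_1) ⊗ … ⊗ h ^ 1 (A_n)` is a direct sum of
objects `N` with an action of a field `D = F` such that `H (N)` is free of rank one over `F ⊗ ℚ_l`,
and all twists of them satisfy the condition. All motives of abelian type are direct summands of
sums of such objects. Hence, without any conjecture: the category of motives of abelian type over a
finite field is abelian if and only if rational and numerical equivalence (with rational
coefficients) agree for all products of curves, or for all abelian varieties, over `k`. (If they
agree, the category is abelian and semisimple by Jannsen's theorem.)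

The same holds for the category generated by the motive of a variety `X` for which the Frobenius has
only simple eigenvalues on the cohomology (or, more generally, if the algebra of correspondences
modulo numerical equivalence contains a commutative semisimple algebra of the dimension of the
cohomology, as it follows from Tate's conjecture for `X × X`; this is known for K3 surfaces): it is
abelian if and only if rational and numerical equivalence agree on all powers of `X`.

Proof. Let `dim Hom (𝟙, M) = m (1)`. The algebra `End (M)` is finite-dimensional, and `M` is the
direct sum of an object with `fr - 1` nilpotent and an object without morphisms from `𝟙`. In the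
first case `1` is the only eigenvalue, and the same holds for the cokernel of a nonzero
`f : 𝟙 ⟶ M`, which has again as many morphisms from `𝟙` as possible. When `m (1) = 0` all traces of
powers of `fr` vanish on `M`, hence on `M ⊗ Mᘁ` (the trace is multiplicative), and then
`Hom (𝟙, M ⊗ Mᘁ) = 0` and `M = 0`. By induction the cokernel is a sum of copies of `𝟙`, and all its
morphisms from `𝟙` lift to `M`; so `M` is a sum of copies of `𝟙`.
-/

set_option autoImplicit false

open CategoryTheory MonoidalCategory Limits

universe v u w

namespace Pool.Agent.Results.MP_6c4da4_ag.AbelianTypeMotives

open Pool.Agent.NH36.Ab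

theorem result (K : Type w) [Field K] [CharZero K] (C : Type u) [Category.{v} C] [Abelian C]
    [Linear ℚ C] [MonoidalCategory C] [SymmetricCategory C] [MonoidalPreadditive C]
    [MonoidalLinear ℚ C] [RightRigidCategory C] (hE : EndUnit C) (fr : ∀ M : C, M ⟶ M)
    (F : IsMonFrob K fr) :
    (∀ (M : C) (m : K →₀ ℤ), IsZeta K (fr M) m →
      ((Module.finrank ℚ (𝟙_ C ⟶ M) : ℤ) = m 1 ↔
        (Module.finrank ℚ ((𝟙_ C ⟶ M) ⧸ numTriv M) : ℤ) = m 1) ∧
      ((Module.finrank ℚ (𝟙_ C ⟶ M) : ℤ) = m 1 → numTriv M = ⊥) ∧
      (ManyIso M (m 1) → numTriv M = ⊥)) ∧
    ((∀ M : C, ∃ (n : ℕ) (N : Fin n → C) (m : Fin n → K →₀ ℤ) (s : ∀ j, M ⟶ N j)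
        (t : ∀ j, N j ⟶ M), (∀ j, IsZeta K (fr (N j)) (m j) ∧ ManyIso (N j) (m j 1)) ∧
        𝟙 M = ∑ j, s j ≫ t j) → ∀ M : C, numTriv M = ⊥) := by
  refine ⟨fun M m hm => ⟨⟨fun h => ?_, fun h => ?_⟩, fun h => F.eq_case hE hm h,
    fun h => F.rank_one hE hm h⟩, fun h M => ?_⟩
  · have h1 := F.eq_case hE hm h
    have h2 := F.toIsFrob.dim_le hE hm
    have := h2.1
    have h3 := Submodule.finrank_quotient_add_finrank (numTriv M)
    have h4 : Module.finrank ℚ (numTriv M) = 0 := by rw [h1]; exact finrank_bot ℚ _
    omega
  · have h1 := F.toIsFrob.numTriv_eq_bot hE hm h
    have h2 := F.toIsFrob.dim_le hE hm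
    have := h2.1
    have h3 := Submodule.finrank_quotient_add_finrank (numTriv M)
    have h4 : Module.finrank ℚ (numTriv M) = 0 := by rw [h1]; exact finrank_bot ℚ _
    omega
  · obtain ⟨n, N, m, s, t, h1, h2⟩ := h M
    rw [eq_bot_iff]
    intro f hf
    rw [Submodule.mem_bot]
    have h3 : f = f ≫ 𝟙 M := by rw [Category.comp_id]
    rw [h3, h2, Preadditive.comp_sum]
    refine Finset.sum_eq_zero fun j _ => ?_
    have h4 : f ≫ s j ∈ numTriv (N j) := by
      intro g
      rw [Category.assoc]
      exact hf _
    rw [F.rank_one hE (h1 j).1 (h1 j).2, Submodule.mem_bot] at h4
    rw [← Category.assoc, h4, zero_comp]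

end Pool.Agent.Results.MP_6c4da4_ag.AbelianTypeMotives
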