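import Pool.Agent.NH36.Ab.Dim

/-!
# If the category of Chow motives over a finite field is abelian: a bound by the zeta function

Let `k` be a finite field with `q` elements and `C` the category of Chow motives over `k` with
rational coefficients, or a full rigid tensor subcategory, for example the one generated by the
motive of one variety. It is a rigid symmetric monoidal `ℚ`-linear category with `End (𝟙) = ℚ`, and
`Hom (𝟙, h(X)(r)) = CH ^ r (X)` with rational coefficients. The Frobenius endomorphisms
`fr M : M ⟶ M` (for `M = (X, p, m)`: the graph of the Frobenius divided by `q ^ m`) are natural.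
By the trace formula the trace of the `n`-th power of `fr M` is `∑ m (a) a ^ n`, where
`a` runs over the eigenvalues and `m (a)` is the multiplicity of `a` in the even cohomology of `M`
minus the multiplicity in the odd cohomology, so that `∏ (1 - a t) ^ (- m (a))` is the zeta function
of `M`. By Deligne's theorem the eigenvalue `1` occurs in cohomology of weight zero only, which is
even, and so `m (1) ≥ 0`; for `M = h(X)(r)` the number `m (1)` is the order of the pole of
`ζ(X, s)` at `s = r`.

**Theorem.** Suppose that `C` is an abelian category.
* `Hom (𝟙, M)` is finite-dimensional, of dimension at most `m (1)`. So all Chow groups `CH ^ r (X)` with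
  rational coefficients are finite-dimensional, and their dimension is at most the order of the
  pole of the zeta function at `s = r`.
* If the rank of the group of cycles modulo numerical equivalence is this order (the strong form of
  Tate's conjecture for `X` and `r`), then rational and numerical equivalence agree on `CH ^ r (X)`.
* Numerically trivial endomorphisms are nilpotent. In particular a motive whose cohomology vanishes
  is zero, and it follows that all Chow motives are finite-dimensional in the sense of
  Kimura and O'Sullivan.
* All spaces of morphisms are finite-dimensional.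
* External products of nonzero cycle classes are not zero (this holds for abelian `C` over any
  field, without Frobenius endomorphisms).

Proof. A nonzero `f : 𝟙 ⟶ M` is a monomorphism: if `i : K ⟶ 𝟙` is its kernel, then the braiding of
`K ⊗ K` is the identity, hence the trace of the identity of `K` is one if `K ≠ 0`, and `K ⊗ f = 0`
gives `f = 0`. For the cokernel `C` of `f` one has `tr (b | M) = a + tr (c | C)` for every
endomorphism `b` of `M` with `b f = a f`, which induces `c`: the morphism
`M ⟶ M ⊗ M`, `x ↦ f ⊗ x - x ⊗ f`, factors through `C`; one takes a partial trace. Applied to the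
powers of the Frobenius this gives `m_M (1) = m_C (1) + 1`, and the first statement follows by
induction. For an idempotent `e` which is numerically trivial, with image `I`, all traces on
`I ⊗ Iᘁ` vanish, and so `Hom (𝟙, I ⊗ Iᘁ) = 0` and `I = 0`.
-/

set_option autoImplicit false

open CategoryTheory MonoidalCategory Limits

universe v u w

namespace Pool.Agent.Results.MP_6c4da4_ag.ZetaBound

open Pool.Agent.NH36.Ab

theorem result (K : Type w) [Field K] [CharZero K] (C : Type u) [Category.{v} C] [Abelian C]
    [Linear ℚ C] [MonoidalCategory C] [SymmetricCategory C] [MonoidalPreadditive C]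
    [MonoidalLinear ℚ C] [RightRigidCategory C] (hE : EndUnit C) :
    (∀ (fr : ∀ M : C, M ⟶ M), IsFrob K fr →
      (∀ (M : C) (m : K →₀ ℤ), IsZeta K (fr M) m →
        (Module.Finite ℚ (𝟙_ C ⟶ M) ∧ (Module.finrank ℚ (𝟙_ C ⟶ M) : ℤ) ≤ m 1) ∧
        ((Module.finrank ℚ ((𝟙_ C ⟶ M) ⧸ numTriv M) : ℤ) = m 1 → numTriv M = ⊥)) ∧
      (∀ (M : C) (φ : M ⟶ M), (∀ ψ : M ⟶ M, tr M Mᘁ (φ ≫ ψ) = 0) → ∃ n, pw φ n = 0) ∧
      (∀ M N : C, Module.Finite ℚ (M ⟶ N))) ∧
    (∀ (M N : C) (f : 𝟙_ C ⟶ M) (g : 𝟙_ C ⟶ N), f ≠ 0 → g ≠ 0 → f ⊗ₘ g ≠ 0) := by
  refine ⟨fun fr F => ⟨fun M m hm => ⟨F.dim_le hE hm, F.numTriv_eq_bot hE hm⟩,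
    fun M φ hφ => F.nilpotent hE φ hφ, fun M N => F.finite_hom hE M N⟩,
    fun M N f g hf hg => tensor_ne_zero hE f g hf hg⟩

end Pool.Agent.Results.MP_6c4da4_ag.ZetaBound
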